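import Pool.Agent.EDG.FINAL
import Pool.Agent.EDG.DENSE

/-!
# MP_1e2e2b_co: the edge drawing game and balanced binary trees

(1) For every infinite locally finite set of marked points, Spoiler (who moves second) has a
strategy, all of whose moves are legal, which prevents the balanced binary tree `B_14` for ever;
so Builder has no winning strategy in the `B_14`-subgraph edge drawing game.

(2) If the marked points are instead dense in the plane, the game is trivial: Builder wins the
`B_d`-subgraph edge drawing game for every `d`.
-/

set_option autoImplicit false

namespace Pool.Agent.Results.MP_1e2e2b_co.SpoilerPreventsTree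

open Pool.Agent.EDG

theorem result :
    (∀ S : Set Pl, Marked S → SpoilerWins S (binTree 14) ∧ ¬ BuilderWins S (binTree 14)) ∧
    (∀ S : Set Pl, S.Countable → Dense S → ∀ d : ℕ, BuilderWins S (binTree d)) :=
  ⟨fun S hS => ⟨spoiler_wins S hS, not_builder_wins S _ (spoiler_wins S hS)⟩,
    fun _ hc hd d => builder_wins_dense hc hd d⟩

end Pool.Agent.Results.MP_1e2e2b_co.SpoilerPreventsTree
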